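import Pool.Agent.N166.AJ.Main

/-!
# Injectivity of Abel-Jacobi maps and arithmetic hard Lefschetz for one variety

Let `X` be a variety of dimension `n` over a number field and `h` a divisor class such that the
inverses of the Lefschetz isomorphisms between the odd cohomology groups, given by the powers of `h`,
are algebraic (a part of the standard conjecture B for `X`; known for abelian varieties, complete
intersections, and in many other cases). All groups have rational coefficients. Besides the
injectivity of the Abel-Jacobi maps `CH^i(X)_hom → J^(2i-1)(X)` we consider the arithmetic hard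
Lefschetz conjecture of Beilinson: for `2 i ≤ n + 1` the multiplication with `h^(n+1-2i)` is an
isomorphism from `CH^i(X)_hom` to `CH^(n+1-i)(X)_hom`.

* The Abel-Jacobi maps of `X` are injective in all codimensions if and only if arithmetic hard
  Lefschetz holds for `X`, `h` and the Abel-Jacobi map is injective in the middle codimension
  `[(n+1)/2]`. It is also sufficient that they are injective for `2 i ≤ n + 1` and the
  multiplications are surjective, or that they are injective for `2 i ≥ n + 1` and the
  multiplications are injective; the latter follows from Beilinson's Hodge index conjecture for the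
  height pairing.
* More precisely, for each single pair `i`, `j = n + 1 - i` with `2 i ≤ n + 1`: injectivity of the
  Abel-Jacobi map in codimension `i` (in codimension `j`) gives the injectivity (the surjectivity) of
  the multiplication, and conversely the surjectivity (the injectivity) of the multiplication allows
  to pass from `i` to `j` (from `j` to `i`).
* If arithmetic hard Lefschetz holds, the injectivity of the Abel-Jacobi map in a codimension `c`
  implies the injectivity in all the codimensions which are not closer to the middle than `c`.
-/

set_option autoImplicit false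

universe u v w

namespace Pool.Agent.Results.MP_a1cc03_ag.HardLefschetz

open Pool.Agent.H914 Pool.Agent.N164.Prim Pool.Agent.N166.HI Pool.Agent.N166.AJ
open Pool.Agent.W492.BB (TheoryData WeilTheoryData)

/-- **Abel-Jacobi injectivity in all codimensions = arithmetic hard Lefschetz + Abel-Jacobi
injectivity in the middle codimension.** -/
theorem result {k : Type u} [Field k] {𝒱 : VarClass k} {C : TheoryData.{u, v, 0} 𝒱 ℚ}
    [IsChowTheory C] {K : Type w} [Field K] {H : WeilTheoryData.{u, v, w} C K} [IsWeilTheory H]
    {N : ∀ X : 𝒱.Obj, ℕ → Sub C X} (hN : IsAbelJacobiKernel H N) (X : 𝒱.Obj) (h : C.A X)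
    (hh : C.Deg 1 h) (hB : HasInverseLefschetz H X h) :
    List.TFAE [∀ i, AJInjective N X i,
      (∀ i, 2 * i ≤ X.dim + 1 → AJInjective N X i) ∧
        ∀ i, 2 * i ≤ X.dim + 1 → LefschetzSurjective H X h i,
      (∀ i, X.dim + 1 ≤ 2 * i → AJInjective N X i) ∧
        ∀ i, 2 * i ≤ X.dim + 1 → LefschetzInjective H X h i,
      ArithmeticLefschetz H X h ∧ AJInjective N X ((X.dim + 1) / 2)] ∧
    (∀ i, 2 * i ≤ X.dim + 1 →
      (AJInjective N X i → LefschetzInjective H X h i) ∧
      (AJInjective N X (X.dim + 1 - i) → LefschetzSurjective H X h i) ∧
      (AJInjective N X i → LefschetzSurjective H X h i → AJInjective N X (X.dim + 1 - i)) ∧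
      (AJInjective N X (X.dim + 1 - i) → LefschetzInjective H X h i → AJInjective N X i)) ∧
    (ArithmeticLefschetz H X h → ∀ c i : ℕ,
      |2 * (c : ℤ) - (X.dim + 1)| ≤ |2 * (i : ℤ) - (X.dim + 1)| →
        AJInjective N X c → AJInjective N X i) ∧
    (∀ ht : C.A X → C.A X → ℝ, IsHeightPairing H X ht → HodgeIndex H X h ht →
      ((∀ i, AJInjective N X i) ↔ ∀ i, X.dim + 1 ≤ 2 * i → AJInjective N X i)) :=
  ⟨main_all inferInstance inferInstance hN hh hB,
    fun _ hi => main_pair inferInstance inferInstance hN hh hB hi,
    fun hA c i hci hc => mono inferInstance inferInstance hN hh hB hA c i hci hc,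
    fun _ hp hI => main_hodge inferInstance inferInstance hN hh hB hp hI⟩

end Pool.Agent.Results.MP_a1cc03_ag.HardLefschetz
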