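import Pool.Agent.N567.MD.MainL

/-!
# Abel-Jacobi maps, Bloch-Beilinson filtrations and products of homologically trivial cycles

Let `𝒱` be a class of varieties over a field `k` (a number field, say) which satisfy the standard
conjecture of Lefschetz type, closed under products and smooth complete intersections (the
hypotheses used here, `IsLefschetzClass` and `HasSections`, are consequences).

It is shown that the Abel-Jacobi maps of all the varieties in `𝒱` are injective (with rational
coefficients) if and only if the intersection products of homologically trivial cycles vanish, and a
Bloch-Beilinson filtration exists. The second condition is satisfied if and only if for varieties `X`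
of dimension `2 j - 1`, `j` arbitrarily large, the self-correspondences acting as zero on `H^m(X)`
for `m < 2 j - 1` act nilpotently on the kernel of the Abel-Jacobi map in `CH^j(X)`. If the products
vanish, it is sufficient that the parts of weight at least `2 j - 1` of one Chow-Kunneth
decomposition act as zero on this kernel.

Over the complex numbers Bloch-Beilinson filtrations are expected to exist as well, but the products
of homologically trivial cycles do not vanish: the vanishing of the products is what distinguishes
number fields.
-/

set_option autoImplicit false

universe u v w

namespace Pool.Agent.Results.MP_a1cc03_ag.ProductsAndFiltrations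

open Pool.Agent.H914 Pool.Agent.N164.Prim Pool.Agent.N567.Mid
open Pool.Agent.W492.BB (TheoryData WeilTheoryData)

/-- Let `𝒱` be a Lefschetz class of varieties with enough sections (with Chow groups `C`, a Weil
cohomology `H` and the kernels `N X j` of the Abel-Jacobi maps) which contains a curve. The following
are equivalent:

* the Abel-Jacobi maps are injective, `N X j = 0` for all `X` in `𝒱` and all `j`;
* products of homologically trivial classes vanish, and a Bloch-Beilinson filtration exists on the
  Chow groups of all the varieties in `𝒱`;
* products of homologically trivial classes vanish, and for arbitrarily large `j` every variety of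
  dimension `2 j - 1` is covered by a variety `X'` of dimension `2 j' - 1` such that the
  self-correspondences acting as zero on `H^m(X')`, `m < dim X'`, act nilpotently on `N X' j'`;
* products of homologically trivial classes vanish, and for arbitrarily large `j` every variety of
  dimension `2 j - 1` is covered by a variety `X'` of dimension `2 j' - 1`, one of whose
  Chow-Kunneth decompositions `π` has the property that `π b`, `b ≥ dim X'`, acts as zero on
  `N X' j'`. -/
theorem result {k : Type u} [Field k] {𝒱 : VarClass k} {C : TheoryData.{u, v, 0} 𝒱 ℚ}
    [IsChowTheory C] {K : Type w} [Field K] {H : WeilTheoryData.{u, v, w} C K} [IsWeilTheory H]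
    (hg : IsGradedCommutative H) (hL : IsLefschetzClass H) (hS : HasSections H) {T : 𝒱.Obj}
    (hT : T.dim = 1) {N : ∀ X : 𝒱.Obj, ℕ → Sub C X} (hN : IsAbelJacobiKernel H N) :
    List.TFAE [∀ (X : 𝒱.Obj) (j : ℕ) (z : C.A X), Mem (N X j) z → z = zero C X,
      ProductsVanish H ∧ ∃ F, IsBlochBeilinsonOn H N (fun _ => True) F,
      ProductsVanish H ∧ ∀ e : ℕ, ∃ j, e ≤ j ∧ NilpotentInCodim H N j,
      ProductsVanish H ∧ HasGoodCoverings H N (fun _ => True)] :=
  mainL inferInstance inferInstance hg hL hS hT hN

end Pool.Agent.Results.MP_a1cc03_ag.ProductsAndFiltrations
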